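import Pool.Agent.Helper14.WK.StA

/-!
# Project WK: module KE (derivative of the Eichler primitives)
-/

set_option autoImplicit false

open UpperHalfPlane CongruenceSubgroup
open scoped MatrixGroups

namespace Pool.Agent.Helper6.WK

open Pool.Agent.Helper14.WK
open Pool.Agent.Helper14.CV (G0 Homog EqC act)
open Pool.Agent.Helper28.WK (pr cp WT)

private lemma EK_deriv {N : ℕ} {k : ℤ} (f : CuspForm (G0 N) k) (z : ℂ)
    (h0 : FpK f 0 z = fzK f z) (h1 : ∀ i : ℕ, HasDerivAt (FpK f (i + 1)) (FpK f i z) z) (j : ℕ) :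
    HasDerivAt (EK f j) (fzK f z * z ^ j) z := by
  have hterm : ∀ i ∈ Finset.range (j + 1),
      HasDerivAt (fun w : ℂ => (-1) ^ i * (j.descFactorial i : ℂ) * w ^ (j - i) * FpK f (i + 1) w)
        ((-1) ^ i * (j.descFactorial i : ℂ) * z ^ (j - i) * FpK f i z -
          (-1) ^ (i + 1) * (j.descFactorial (i + 1) : ℂ) * z ^ (j - (i + 1)) *
            FpK f (i + 1) z) z := by
    intro i _
    have hp := ((hasDerivAt_pow (j - i) z).const_mul
      ((-1) ^ i * (j.descFactorial i : ℂ))).mul (h1 i)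
    refine hp.congr_deriv ?_
    rw [Nat.descFactorial_succ, Nat.sub_succ' j i]
    push_cast
    ring
  have hsum := HasDerivAt.fun_sum hterm
  have hE : EK f j = fun w : ℂ => ∑ i ∈ Finset.range (j + 1),
      (-1) ^ i * (j.descFactorial i : ℂ) * w ^ (j - i) * FpK f (i + 1) w := rfl
  rw [hE]
  refine hsum.congr_deriv ?_
  rw [Finset.sum_range_sub' (fun i => (-1) ^ i * (j.descFactorial i : ℂ) * z ^ (j - i) *
    FpK f i z) (j + 1)]
  rw [Nat.descFactorial_eq_zero_iff_lt.2 (Nat.lt_succ_self j), h0]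
  simp
  ring

theorem hKE (h1 : SKA1) : SKE := by
  intro N hN k f z hz
  obtain ⟨-, -, -, h0, hd⟩ := h1 N hN k f z hz
  have hE := EK_deriv f z h0 hd
  refine ⟨hE, fun P => ?_⟩
  have hterm : ∀ i ∈ P.support,
      HasDerivAt (fun w : ℂ => (P.coeff i : ℂ) * EK f i w)
        ((P.coeff i : ℂ) * (fzK f z * z ^ i)) z := fun i _ => (hE i).const_mul _
  have hsum := HasDerivAt.fun_sum hterm
  have hP : prE f P = fun w : ℂ => ∑ i ∈ P.support, (P.coeff i : ℂ) * EK f i w := rfl
  rw [hP]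
  refine hsum.congr_deriv ?_
  rw [Polynomial.aeval_def, Polynomial.eval₂_eq_sum, Polynomial.sum_def, Finset.mul_sum]
  refine Finset.sum_congr rfl fun i _ => ?_
  simp only [algebraMap_int_eq, eq_intCast]
  ring

end Pool.Agent.Helper6.WK
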